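import Pool.Agent.Lib.MP_a93a81_co.Final

/-!
# Infinite strict ratio monotonicity of the Boros-Moll sequences

For every `m ≥ 2` and every `k ≥ 0` the sequence `L^k({d_i(m)}_{0 ≤ i ≤ m})` is strictly ratio
monotone.
-/

namespace Pool.Agent.Results.MP_a93a81_co.InfiniteRatioMonotone

/-- The Boros-Moll coefficient
`d_i(m) = 2^(-2m) ∑_{k=i}^m 2^k C(2m-2k, m-k) C(m+k, k) C(k, i)`. -/
noncomputable def d (m i : ℕ) : ℝ :=
  (∑ k ∈ Finset.Icc i m, (2:ℝ) ^ k * ((2 * m - 2 * k).choose (m - k) : ℝ) *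
    ((m + k).choose k : ℝ) * (k.choose i : ℝ)) / 2 ^ (2 * m)

/-- The operator `L` on finite sequences `a_0, …, a_n`:
`L(a)_i = a_i^2 - a_{i-1} a_{i+1}` for `0 ≤ i ≤ n`, with `a_{-1} = a_{n+1} = 0`.
(Only the entries with index at most `n` matter.) -/
noncomputable def L (n : ℕ) (a : ℕ → ℝ) (i : ℕ) : ℝ :=
  a i ^ 2 - (if i = 0 then 0 else a (i - 1)) * (if i = n then 0 else a (i + 1))

/-- The finite sequence `a_0, …, a_n` is strictly ratio monotone: all entries are positive,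
`a_0/a_{n-1} < a_1/a_{n-2} < … < a_{⌊n/2⌋-1}/a_{n-⌊n/2⌋} < 1` and
`a_n/a_0 < a_{n-1}/a_1 < … < a_{n-⌊(n-1)/2⌋}/a_{⌊(n-1)/2⌋} < 1`. -/
def StrictlyRatioMonotone (n : ℕ) (a : ℕ → ℝ) : Prop :=
  (∀ i ≤ n, 0 < a i) ∧
  (∀ i, i + 1 < n / 2 → a i / a (n - 1 - i) < a (i + 1) / a (n - 1 - (i + 1))) ∧
  (1 ≤ n / 2 → a (n / 2 - 1) / a (n - n / 2) < 1) ∧
  (∀ i, i < (n - 1) / 2 → a (n - i) / a i < a (n - (i + 1)) / a (i + 1)) ∧
  a (n - (n - 1) / 2) / a ((n - 1) / 2) < 1

theorem L_apply (n : ℕ) (a : ℕ → ℝ) (i : ℕ) : L n a i =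
    a i ^ 2 - (if i = 0 then 0 else a (i - 1)) * (if i = n then 0 else a (i + 1)) := rfl

theorem lop_apply (a : ℕ → ℝ) (i : ℕ) : BMoll.Lop a i =
    a i ^ 2 - (if i = 0 then 0 else a (i - 1)) * a (i + 1) := rfl

theorem lop_zero {m : ℕ} (k : ℕ) : ∀ i, m < i → BMoll.Lop^[k] (BMoll.bm m) i = 0 := by
  induction k with
  | zero => intro i hi; exact BMoll.bm_zero hi
  | succ k ih =>
    intro i hi
    rw [Function.iterate_succ_apply', lop_apply, ih i hi, ih (i + 1) (by omega)]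
    simp

theorem L_iterate {m : ℕ} (k : ℕ) :
    ∀ i ≤ m, (L m)^[k] (d m) i = BMoll.Lop^[k] (BMoll.bm m) i := by
  induction k with
  | zero => intro i _; rfl
  | succ k ih =>
    intro i hi
    rw [Function.iterate_succ_apply', Function.iterate_succ_apply', L_apply, lop_apply, ih i hi]
    have h1 : (if i = 0 then (0:ℝ) else (L m)^[k] (d m) (i - 1))
        = if i = 0 then (0:ℝ) else BMoll.Lop^[k] (BMoll.bm m) (i - 1) := by
      split_ifs with h
      · rfl
      · exact ih (i - 1) (by omega)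
    have h2 : (if i = m then (0:ℝ) else (L m)^[k] (d m) (i + 1))
        = BMoll.Lop^[k] (BMoll.bm m) (i + 1) := by
      split_ifs with h
      · rw [h, lop_zero k (m + 1) (by omega)]
      · exact ih (i + 1) (by omega)
    rw [h1, h2]

/-- Infinite strict ratio monotonicity of the Boros-Moll sequences. -/
theorem result : ∀ m : ℕ, 2 ≤ m → ∀ k : ℕ, StrictlyRatioMonotone m ((L m)^[k] (d m)) := by
  intro m hm k
  obtain ⟨h1, h2, h3, h4, h5⟩ := BMoll.main hm k
  have e := L_iterate (m := m) k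
  refine ⟨fun i hi => ?_, fun i hi => ?_, fun hn => ?_, fun i hi => ?_, ?_⟩
  · rw [e i hi]; exact h1 i hi
  · have h := h2 i hi
    rw [e i (by omega), e (m - 1 - i) (by omega), e (i + 1) (by omega),
      e (m - 1 - (i + 1)) (by omega), show m - 1 - (i + 1) = m - 2 - i by omega]
    exact h
  · rw [e _ (by omega), e _ (by omega)]; exact h3 hn
  · have h := h4 i hi
    rw [e (m - i) (by omega), e i (by omega), e (m - (i + 1)) (by omega), e (i + 1) (by omega),
      show m - (i + 1) = m - i - 1 by omega]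
    exact h
  · rw [e _ (by omega), e _ (by omega)]; exact h5

end Pool.Agent.Results.MP_a93a81_co.InfiniteRatioMonotone
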